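import Mathlib
import Pool.Agent.Lib.helper11.Mahler

set_option autoImplicit false

namespace Pool.Agent.H.MP_7b566e_nt

open PowerSeries Finset Pool.Agent.Lib.helper11.Mahler

def c1 (d n : ℕ) : ℕ := (d + n).descFactorial n / n.factorial

def nx (q d : ℕ) (f : ℕ → ℕ) (n : ℕ) : ℕ :=
  ∑ j ∈ range (n + 1), if q ∣ n - j then c1 d j * f ((n - j) / q) else 0

lemma coeff_geo (d n : ℕ) : coeff n (geo ℤ 1 ^ (d + 1)) = c1 d n := by
  have h : geo ℤ 1 = PowerSeries.mk 1 := by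
    ext j
    simp [geo]
  rw [h, mk_one_pow_eq_mk_choose_add, coeff_mk, c1, ← Nat.choose_eq_descFactorial_div_factorial,
    Nat.choose_symm_add]

lemma coeff_nx (q d : ℕ) (hq : q ≠ 0) (f : ℕ → ℕ) (F : ℤ⟦X⟧) (h : ∀ n, coeff n F = f n) (n : ℕ) :
    coeff n (geo ℤ 1 ^ (d + 1) * expand q hq F) = nx q d f n := by
  rw [coeff_mul, Finset.Nat.sum_antidiagonal_eq_sum_range_succ_mk, nx]
  push_cast
  refine sum_congr rfl fun j _ => ?_
  rw [coeff_expand, coeff_geo, h]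
  split_ifs <;> simp

lemma three (q d N n : ℕ) (hq : 1 < q) (hn : n < q ^ 3) (hN : 3 ≤ N) :
    coeff n (∏ i ∈ range N, geo ℤ (q ^ i) ^ (d + 1)) = nx q d (nx q d (c1 d)) n := by
  have h := coeff_prod_stable (R := ℤ) q (d + 1) n hq 1 3 N hn hN
  have h0 : q ≠ 0 := by omega
  rw [one_mul, one_mul] at h
  rw [h, ← coeff_nx q d h0 _ _ (coeff_nx q d h0 _ _ (coeff_geo d))]
  simp only [prod_range_succ, prod_range_zero, map_mul, map_pow, expand_geo, pow_zero, pow_one,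
    one_mul, mul_one, mul_assoc, pow_two]

lemma v1 : nx 13 767 (nx 13 767 (c1 767)) 221 % 13 ^ 4 = 0 ∧
    nx 13 767 (nx 13 767 (c1 767)) 221 % 13 ^ 5 ≠ 0 ∧
    nx 13 767 (nx 13 767 (c1 767)) 222 % 13 ^ 3 = 0 ∧
    nx 13 767 (nx 13 767 (c1 767)) 222 % 13 ^ 4 ≠ 0 := by
  decide +kernel

lemma val (a t : ℕ) (h1 : a % 13 ^ t = 0) (h2 : a % 13 ^ (t + 1) ≠ 0) :
    emultiplicity ((13 : ℕ) : ℤ) (a : ℤ) = t := by
  rw [Int.natCast_emultiplicity]
  exact emultiplicity_eq_of_dvd_of_not_dvd (Nat.dvd_of_mod_eq_zero h1)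
    fun h => h2 (Nat.mod_eq_zero_of_dvd h)

lemma e1 : emultiplicity ((13 : ℕ) : ℤ)
    (coeff 221 (∏ i ∈ range (221 + 1), geo ℤ (13 ^ i) ^ 768)) = 4 := by
  obtain ⟨h1, h2, -⟩ := v1
  rw [three 13 767 _ _ (by norm_num) (by norm_num) (by norm_num)]
  generalize nx 13 767 (nx 13 767 (c1 767)) 221 = a at *
  exact val a 4 h1 h2

lemma e2 : emultiplicity ((13 : ℕ) : ℤ)
    (coeff 222 (∏ i ∈ range (222 + 1), geo ℤ (13 ^ i) ^ 768)) = 3 := by
  obtain ⟨-, -, h1, h2⟩ := v1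
  rw [three 13 767 _ _ (by norm_num) (by norm_num) (by norm_num)]
  generalize nx 13 767 (nx 13 767 (c1 767)) 222 = a at *
  exact val a 3 h1 h2

end Pool.Agent.H.MP_7b566e_nt
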